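import Mathlib

/-!
# The coset-counting recurrence algorithm in the free group of rank two ends within `[F₂ : H]` steps

For every subgroup `H` of finite index in the free group `F₂` and every `y`, the set `E_i` of edges
highlighted at step `i` is empty for all `i > [F₂ : H]`.
-/

namespace Pool.Agent.Results.MP_f02465_al.EndsWithinIndex

open Finset

/-- The free group on `a = of 0` and `b = of 1`. -/
abbrev F2 : Type := FreeGroup (Fin 2)

/-- The four letters `a, a⁻¹, b, b⁻¹`, indexed by a generator and a sign. -/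
def letter (l : Fin 2 × Bool) : F2 :=
  if l.2 then FreeGroup.of l.1 else (FreeGroup.of l.1)⁻¹

/-- The edges of the directed coset graph of `F₂ / H`: a left coset together with a letter. -/
abbrev Edge (H : Subgroup F2) : Type := (F2 ⧸ H) × (Fin 2 × Bool)

/-- The vertex an edge leaves. -/
def source {H : Subgroup F2} (e : Edge H) : F2 ⧸ H := e.1

/-- The vertex where an edge ends: the edge given by the coset `rH` and the letter `h` goes from
`rH` to `hrH`. -/
def target {H : Subgroup F2} (e : Edge H) : F2 ⧸ H := letter e.2 • e.1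

/-- The set `E_i` of edges highlighted at step `i` (with `E_0 = ∅`, which is not used). -/
def highlighted (H : Subgroup F2) (y : F2) : ℕ → Set (Edge H)
  | 0 => ∅
  | 1 => {e | source e = (y : F2 ⧸ H)}
  | i + 2 => {e | (∃ f ∈ highlighted H y (i + 1), target f = source e) ∧
      ¬ ∃ f ∈ highlighted H y (i + 1), source f = target e ∧ target f = source e}

section General

variable {X L : Type*} [Fintype X] [DecidableEq X] [Fintype L]
  (act : L → X → X) (inv : L → L)

/-- The neighbours of a set of vertices. -/
def nb (S : Finset X) : Finset X := by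
  classical exact univ.filter (fun x => ∃ h, act h x ∈ S)

lemma mem_nb {S : Finset X} {x : X} : x ∈ nb act S ↔ ∃ h, act h x ∈ S := by
  classical
  simp [nb]

/-- `Q (n + 1)` is the set of vertices joined to `y` by a walk of length exactly `n`. -/
def Q (y : X) : ℕ → Finset X
  | 0 => ∅
  | 1 => {y}
  | n + 2 => nb act (Q y (n + 1))

/-- The `n`-th level of the breadth first search in the bipartite double cover. -/
def T (y : X) (n : ℕ) : Finset X := Q act y (n + 1) \ Q act y (n - 1)

variable {act inv} (hinv : ∀ h x, act (inv h) (act h x) = x)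

include hinv in
lemma act_mem_nb {S : Finset X} {x : X} (hx : x ∈ S) (h : L) : act h x ∈ nb act S :=
  (mem_nb act).2 ⟨inv h, by rw [hinv]; exact hx⟩

lemma Q_succ (y : X) {n : ℕ} (hn : 1 ≤ n) : Q act y (n + 1) = nb act (Q act y n) := by
  obtain ⟨k, rfl⟩ : ∃ k, n = k + 1 := ⟨n - 1, by omega⟩
  rfl

lemma nb_mono {S S' : Finset X} (h : S ⊆ S') : nb act S ⊆ nb act S' := by
  intro x hx
  obtain ⟨k, hk⟩ := (mem_nb act).1 hx
  exact (mem_nb act).2 ⟨k, h hk⟩

include hinv in
lemma nb_Q_subset (y : X) (n : ℕ) {x : X} (hx : x ∈ Q act y n) (h : L) :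
    act h x ∈ Q act y (n + 1) := by
  rcases Nat.eq_zero_or_pos n with rfl | hn
  · simp [Q] at hx
  · rw [Q_succ y hn]
    exact act_mem_nb hinv hx h

include hinv in
lemma Q_mono [Nonempty L] (y : X) (n : ℕ) : Q act y n ⊆ Q act y (n + 2) := by
  obtain ⟨h⟩ := ‹Nonempty L›
  induction n with
  | zero => simp [Q]
  | succ n ih =>
    rcases Nat.eq_zero_or_pos n with rfl | hn
    · intro x hx
      rw [Q_succ y (by omega)]
      exact (mem_nb act).2 ⟨h, nb_Q_subset hinv y 1 hx h⟩
    · rw [Q_succ y hn, Q_succ y (by omega)]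
      exact nb_mono ih

/-- Going back along an edge. -/
lemma mem_of_act {inv : L → L} (hinv : ∀ h x, act (inv h) (act h x) = x) (y : X) (n : ℕ) {x : X}
    {h : L} (hx : act h x ∈ Q act y n) : x ∈ Q act y (n + 1) := by
  have := nb_Q_subset hinv y n hx (inv h)
  rwa [hinv] at this

variable (hinv' : ∀ h, inv (inv h) = h) (hL : Fintype.card L = 4)

include hinv hinv' hL in
/-- In the bipartite double cover no vertex separates: a level with one vertex is the last one. -/
lemma last_level (y : X) (j : ℕ) (v : X) (hv : Q act y (j + 2) \ Q act y j = {v}) :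
    Q act y (j + 3) ⊆ Q act y (j + 1) := by
  classical
  haveI : Nonempty L := Fintype.card_pos_iff.mp (by omega)
  have hvmem : v ∈ Q act y (j + 2) \ Q act y j := by rw [hv]; exact mem_singleton_self v
  have hv2 := (mem_sdiff.mp hvmem).1
  have hv0 := (mem_sdiff.mp hvmem).2
  have hsplit : ∀ x, x ∈ Q act y (j + 2) → x ∈ Q act y j ∨ x = v := by
    intro x hx
    by_cases h : x ∈ Q act y j
    · exact Or.inl h
    · right
      have : x ∈ Q act y (j + 2) \ Q act y j := mem_sdiff.mpr ⟨hx, h⟩
      rw [hv] at this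
      exact mem_singleton.mp this
  -- counting pairs
  let A : Finset (X × L) := (Q act y (j + 1)) ×ˢ (univ : Finset L)
  let A1 := A.filter (fun e => act e.2 e.1 ∈ Q act y j)
  let A2 := A.filter (fun e => ¬ act e.2 e.1 ∈ Q act y j)
  let B : Finset (X × L) := (Q act y j) ×ˢ (univ : Finset L)
  let C : Finset L := univ.filter (fun k => act k v ∈ Q act y (j + 1))
  have hA : A.card = 4 * (Q act y (j + 1)).card := by
    simp only [A, card_product, card_univ, hL]; ring
  have hB : B.card = 4 * (Q act y j).card := by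
    simp only [B, card_product, card_univ, hL]; ring
  have hA12 : A1.card + A2.card = A.card := card_filter_add_card_filter_not _
  have hA1 : A1.card = B.card := by
    refine card_bij' (fun e _ => (act e.2 e.1, inv e.2)) (fun e _ => (act e.2 e.1, inv e.2))
      ?_ ?_ ?_ ?_
    · intro e he
      simp only [A1, A, B, mem_filter, mem_product, mem_univ, and_true] at he ⊢
      exact he.2
    · intro e he
      simp only [A1, A, B, mem_filter, mem_product, mem_univ, and_true] at he ⊢
      refine ⟨nb_Q_subset hinv y j he _, ?_⟩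
      rw [hinv]
      exact he
    · intro e he
      simp only [hinv, hinv']
    · intro e he
      simp only [hinv, hinv']
  have hA2 : A2.card = C.card := by
    refine card_bij' (fun e _ => inv e.2) (fun k _ => (act k v, inv k)) ?_ ?_ ?_ ?_
    · intro e he
      simp only [A2, A, C, mem_filter, mem_product, mem_univ, and_true, true_and] at he ⊢
      have h1 : act e.2 e.1 = v := by
        rcases hsplit _ (nb_Q_subset hinv y (j + 1) he.1 e.2) with h | h
        · exact absurd h he.2
        · exact h
      rw [← h1, hinv]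
      exact he.1
    · intro k hk
      simp only [A2, A, C, mem_filter, mem_product, mem_univ, and_true, true_and] at hk ⊢
      refine ⟨hk, ?_⟩
      rw [hinv]
      exact hv0
    · intro e he
      simp only [A2, A, mem_filter, mem_product, mem_univ, and_true] at he
      have h1 : act e.2 e.1 = v := by
        rcases hsplit _ (nb_Q_subset hinv y (j + 1) he.1 e.2) with h | h
        · exact absurd h he.2
        · exact h
      simp only [← h1, hinv, hinv']
    · intro k hk
      simp only [hinv']
  have hC1 : 1 ≤ C.card := by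
    rw [Q_succ y (by omega)] at hv2
    obtain ⟨k, hk⟩ := (mem_nb act).1 hv2
    exact card_pos.mpr ⟨k, by simp only [C, mem_filter, mem_univ, true_and]; exact hk⟩
  have hC4 : C.card ≤ 4 := by
    rw [← hL]; exact card_le_univ C
  have hCe : C.card = 4 := by omega
  have hCu : C = univ := by
    apply eq_univ_of_card
    rw [hCe, hL]
  have hall : ∀ k, act k v ∈ Q act y (j + 1) := by
    intro k
    have : k ∈ C := by rw [hCu]; exact mem_univ k
    simpa [C] using this
  intro x hx
  rw [Q_succ y (by omega)] at hx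
  obtain ⟨h, hh⟩ := (mem_nb act).1 hx
  rcases hsplit _ hh with h' | h'
  · exact mem_of_act hinv y j h'
  · have := hall (inv h)
    rwa [← h', hinv] at this

include hinv in
lemma T_pred (y : X) (j : ℕ) (h : (T act y (j + 1)).Nonempty) : (T act y j).Nonempty := by
  obtain ⟨v, hv⟩ := h
  rw [T, mem_sdiff] at hv
  obtain ⟨hv1, hv2⟩ := hv
  rw [Q_succ y (by omega)] at hv1
  obtain ⟨k, hk⟩ := (mem_nb act).1 hv1
  refine ⟨act k v, mem_sdiff.mpr ⟨hk, fun h => hv2 ?_⟩⟩
  rcases Nat.eq_zero_or_pos j with rfl | hj
  · simp [Q] at h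
  · have := mem_of_act hinv y (j - 1) h
    rwa [show j - 1 + 1 = j + 1 - 1 by omega] at this

include hinv in
lemma T_nonempty_of_le (y : X) {i j : ℕ} (hij : j ≤ i) (h : (T act y i).Nonempty) :
    (T act y j).Nonempty := by
  induction i with
  | zero => rwa [Nat.le_zero.mp hij]
  | succ i ih =>
    rcases Nat.lt_or_ge i j with h' | h'
    · rwa [show j = i + 1 by omega]
    · exact ih h' (T_pred hinv y i h)

include hinv hinv' hL in
lemma T_card_ge_two (y : X) (j : ℕ) (h : (T act y (j + 2)).Nonempty) :
    2 ≤ (T act y (j + 1)).card := by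
  have h1 := T_pred hinv y (j + 1) h
  by_contra hlt
  have h2 : (T act y (j + 1)).card = 1 := by
    have := card_pos.mpr h1
    omega
  obtain ⟨v, hv⟩ := card_eq_one.mp h2
  have h3 := last_level hinv hinv' hL y j v (by simpa [T] using hv)
  obtain ⟨x, hx⟩ := h
  rw [T, mem_sdiff] at hx
  exact hx.2 (h3 hx.1)

include hinv hinv' hL in
lemma sum_bound (y : X) (j : ℕ) (h : (T act y (j + 1)).Nonempty) :
    2 * j + 1 ≤ (Q act y (j + 1)).card + (Q act y j).card := by
  haveI : Nonempty L := Fintype.card_pos_iff.mp (by omega)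
  induction j with
  | zero => simp [Q]
  | succ j ih =>
    have h1 := ih (T_pred hinv y (j + 1) h)
    have h2 := T_card_ge_two hinv hinv' hL y j h
    rw [T, card_sdiff_of_subset (by simpa using Q_mono hinv y j)] at h2
    simp only [Nat.add_sub_cancel] at h2
    have h3 := card_le_card (Q_mono hinv y j)
    rw [show j + 1 + 1 = j + 2 by ring] at h2 ⊢
    omega

include hinv hinv' hL in
/-- Nonempty levels have index at most the number of vertices. -/
lemma level_le_card (y : X) (i : ℕ) (hi : 1 ≤ i) (h : (T act y i).Nonempty) :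
    i ≤ Fintype.card X := by
  haveI : Nonempty L := Fintype.card_pos_iff.mp (by omega)
  obtain ⟨j, rfl⟩ : ∃ j, i = j + 1 := ⟨i - 1, by omega⟩
  have h1 := sum_bound hinv hinv' hL y j h
  have h2 := card_pos.mpr h
  rw [T, card_sdiff_of_subset (by simpa using Q_mono hinv y j)] at h2
  simp only [Nat.add_sub_cancel] at h2
  have h3 := card_le_card (Q_mono hinv y j)
  have h4 := card_le_univ (Q act y (j + 1))
  have h5 := card_le_univ (Q act y (j + 2))
  rw [show j + 1 + 1 = j + 2 by ring] at h2
  omega

include hinv in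
lemma T_step (y : X) (n : ℕ) {x : X} {h : L} (hx : x ∈ T act y (n + 1)) :
    act h x ∉ T act y n ↔ act h x ∈ T act y (n + 2) := by
  rw [T, mem_sdiff] at hx
  rw [T, T, mem_sdiff, mem_sdiff]
  simp only [show n + 1 - 1 = n by omega, show n + 2 - 1 = n + 1 by omega] at hx ⊢
  constructor
  · intro h1
    refine ⟨nb_Q_subset hinv y (n + 2) hx.1 h, fun h2 => ?_⟩
    apply h1
    refine ⟨h2, fun h3 => hx.2 ?_⟩
    rcases Nat.eq_zero_or_pos n with rfl | hn
    · simp [Q] at h3
    · have := mem_of_act hinv y (n - 1) h3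
      rwa [show n - 1 + 1 = n by omega] at this
  · intro h1 h2
    exact h1.2 h2.1

lemma T_has_pred (hinv : ∀ h x, act (inv h) (act h x) = x) (y : X) (n : ℕ) {x : X}
    (hx : x ∈ T act y (n + 1)) : ∃ k, act k x ∈ T act y n := by
  rw [T, mem_sdiff] at hx
  obtain ⟨hv1, hv2⟩ := hx
  rw [Q_succ y (by omega)] at hv1
  obtain ⟨k, hk⟩ := (mem_nb act).1 hv1
  refine ⟨k, mem_sdiff.mpr ⟨hk, fun h => hv2 ?_⟩⟩
  rcases Nat.eq_zero_or_pos n with rfl | hj
  · simp [Q] at h
  · have := mem_of_act hinv y (n - 1) h
    rwa [show n - 1 + 1 = n + 1 - 1 by omega] at this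

end General

/-- The action of a letter on the cosets. -/
def actL (H : Subgroup F2) (l : Fin 2 × Bool) (x : F2 ⧸ H) : F2 ⧸ H := letter l • x

/-- The inverse letter. -/
def invL (l : Fin 2 × Bool) : Fin 2 × Bool := (l.1, !l.2)

lemma letter_invL (l : Fin 2 × Bool) : letter (invL l) = (letter l)⁻¹ := by
  obtain ⟨i, b⟩ := l
  cases b <;> simp [letter, invL]

lemma invL_act (H : Subgroup F2) (l : Fin 2 × Bool) (x : F2 ⧸ H) :
    actL H (invL l) (actL H l x) = x := by
  rw [actL, actL, letter_invL, inv_smul_smul]

lemma invL_invL (l : Fin 2 × Bool) : invL (invL l) = l := by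
  obtain ⟨i, b⟩ := l
  simp [invL]

lemma highlighted_eq (H : Subgroup F2) [Fintype (F2 ⧸ H)] [DecidableEq (F2 ⧸ H)] (y : F2) (n : ℕ) :
    highlighted H y (n + 1) = {e | e.1 ∈ T (actL H) (y : F2 ⧸ H) n ∧
      target e ∈ T (actL H) (y : F2 ⧸ H) (n + 1)} := by
  induction n with
  | zero =>
    ext e
    simp only [highlighted, source, Set.mem_setOf_eq, T, Q, mem_sdiff, mem_singleton,
      Finset.notMem_empty, not_false_eq_true, and_true, Nat.zero_sub, Nat.add_sub_cancel, zero_add,
      Nat.sub_self]
    constructor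
    · intro h
      refine ⟨h, ?_⟩
      exact nb_Q_subset (act := actL H) (invL_act H) (y : F2 ⧸ H) 1 (x := e.1)
        (by rw [h]; exact mem_singleton_self _) e.2
    · exact fun h => h.1
  | succ n ih =>
    ext e
    have h1 : (∃ f ∈ highlighted H y (n + 1), target f = source e) ↔
        e.1 ∈ T (actL H) (y : F2 ⧸ H) (n + 1) := by
      rw [ih]
      constructor
      · rintro ⟨f, hf, hfe⟩
        rw [source] at hfe
        rw [← hfe]
        exact hf.2
      · intro he
        obtain ⟨k, hk⟩ := T_has_pred (invL_act H) (y : F2 ⧸ H) n he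
        refine ⟨(actL H k e.1, invL k), ⟨hk, ?_⟩, ?_⟩
        · have : target (actL H k e.1, invL k) = e.1 := invL_act H k e.1
          rw [this]
          exact he
        · exact invL_act H k e.1
    have h2 : (∃ f ∈ highlighted H y (n + 1), source f = target e ∧ target f = source e) ↔
        (e.1 ∈ T (actL H) (y : F2 ⧸ H) (n + 1) ∧ target e ∈ T (actL H) (y : F2 ⧸ H) n) := by
      rw [ih]
      constructor
      · rintro ⟨f, hf, hfe, hfe'⟩
        rw [source] at hfe hfe'
        rw [← hfe, ← hfe']
        exact ⟨hf.2, hf.1⟩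
      · rintro ⟨he1, he2⟩
        have h3 : target (target e, invL e.2) = e.1 := invL_act H e.2 e.1
        refine ⟨(target e, invL e.2), ⟨he2, ?_⟩, rfl, h3⟩
        rw [h3]
        exact he1
    have h4 : e ∈ highlighted H y (n + 1 + 1) ↔
        (∃ f ∈ highlighted H y (n + 1), target f = source e) ∧
        ¬ ∃ f ∈ highlighted H y (n + 1), source f = target e ∧ target f = source e := Iff.rfl
    rw [h4, h1, h2]
    constructor
    · rintro ⟨h5, h6⟩
      refine ⟨h5, (T_step (invL_act H) (y : F2 ⧸ H) n h5).1 (fun h7 => h6 ⟨h5, h7⟩)⟩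
    · rintro ⟨h5, h6⟩
      refine ⟨h5, fun h7 => ?_⟩
      exact (T_step (invL_act H) (y : F2 ⧸ H) n h5).2 h6 h7.2

/-- **The algorithm always ends within `[F₂ : H]` steps.**  For every finite-index subgroup `H` of
the free group of rank two and every `y`, no edge is highlighted at any step `i > [F₂ : H]`. -/
theorem result (H : Subgroup F2) [H.FiniteIndex] (y : F2) :
    ∀ i, H.index < i → highlighted H y i = ∅ := by
  classical
  intro i hi
  haveI : Finite (F2 ⧸ H) := Subgroup.finite_quotient_of_finiteIndex
  haveI : Fintype (F2 ⧸ H) := Fintype.ofFinite _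
  obtain ⟨n, rfl⟩ : ∃ n, i = n + 1 := ⟨i - 1, by omega⟩
  rw [highlighted_eq]
  rw [Set.eq_empty_iff_forall_notMem]
  rintro e ⟨-, he⟩
  have hcard : Fintype.card (Fin 2 × Bool) = 4 := by decide
  have h1 := level_le_card (invL_act H) invL_invL hcard (y : F2 ⧸ H) (n + 1) (by omega) ⟨_, he⟩
  rw [Subgroup.index, Nat.card_eq_fintype_card] at hi
  omega

end Pool.Agent.Results.MP_f02465_al.EndsWithinIndex
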